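import Pool.Agent.L0h79.FR.LZ

/-!
# Project FR, part 2: modules LP and LE (cutting parsings)
-/

set_option autoImplicit false
set_option linter.all false

namespace Pool.Agent.L0h48.FR

open Filter Topology Pool.Agent.L0h79.FR

theorem clampPhrase {α : Type} {w : ℕ → α} {s t : ℕ} (h : Phrase w s t) {a b : ℕ} (hab : a ≤ b) :
    Phrase w (max a (min b s)) (max a (min b t)) := by
  obtain ⟨hst, h⟩ := h
  refine ⟨by omega, ?_⟩
  rcases h with h | ⟨δ, h1, h2, h3⟩
  · left; omega
  · by_cases h4 : max a (min b t) ≤ max a (min b s) + 1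
    · exact Or.inl h4
    · right
      refine ⟨δ, h1, by omega, fun j hj1 hj2 => h3 j (by omega) (by omega)⟩

theorem mono_of {α : Type} {w : ℕ → α} {t : ℕ → ℕ} {z : ℕ}
    (ht : ∀ i < z, Phrase w (t i) (t (i + 1))) : Monotone fun i => t (min i z) := by
  apply monotone_nat_of_le_succ
  intro i
  by_cases h : i < z
  · rw [min_eq_left h.le, min_eq_left (by omega : i + 1 ≤ z)]
    exact (ht i h).1
  · rw [min_eq_right (by omega), min_eq_right (by omega)]

theorem cut {α : Type} {w : ℕ → α} {t : ℕ → ℕ} {z : ℕ}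
    (ht : ∀ i < z, Phrase w (t i) (t (i + 1))) {a b : ℕ} (hab : a ≤ b) (h0 : t 0 ≤ a)
    (hz : b ≤ t z) {r : ℕ}
    (hr : ((Finset.range (z + 1)).filter fun i => a < t i ∧ t i ≤ b).card < r) :
    ∃ u : ℕ → ℕ, u 0 = a ∧ u r = b ∧ ∀ i < r, Phrase w (u i) (u (i + 1)) := by
  classical
  set T : ℕ → ℕ := fun i => t (min i z) with hT
  have hm : Monotone T := mono_of ht
  have hP : ∀ i, Phrase w (T i) (T (i + 1)) := by
    intro i
    by_cases h : i < z
    · simp only [hT]
      rw [min_eq_left h.le, min_eq_left (by omega : i + 1 ≤ z)]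
      exact ht i h
    · simp only [hT]
      rw [min_eq_right (by omega), min_eq_right (by omega)]
      exact ⟨le_refl _, Or.inl (by omega)⟩
  -- the last index `i₀ ≤ z` with `T i₀ ≤ a`
  obtain ⟨i₀, hi0, hi1, hi2⟩ : ∃ i₀, i₀ ≤ z ∧ T i₀ ≤ a ∧ ∀ i, i₀ < i → i ≤ z → a < T i := by
    set i₀ := Nat.findGreatest (fun i => T i ≤ a) z with hi₀
    have hx : T 0 ≤ a := by simpa [hT] using h0
    refine ⟨i₀, Nat.findGreatest_le z, Nat.findGreatest_spec (P := fun i => T i ≤ a)
      (Nat.zero_le z) hx, fun i h1 h2 => ?_⟩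
    have := Nat.findGreatest_is_greatest (P := fun i => T i ≤ a) h1 h2
    omega
  refine ⟨fun i => max a (min b (T (i₀ + i))), ?_, ?_, fun i _ => clampPhrase (hP _) hab⟩
  · show max a (min b (T (i₀ + 0))) = a
    rw [add_zero]
    omega
  · show max a (min b (T (i₀ + r))) = b
    have key : b ≤ T (i₀ + r) := by
      by_contra hcon
      push Not at hcon
      have hz' : i₀ + r < z := by
        by_contra h3
        have : T z ≤ T (i₀ + r) := hm (by omega)
        have h4 : T z = t z := by simp [hT]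
        omega
      have hsub : (Finset.Ioc i₀ (i₀ + r)) ⊆
          (Finset.range (z + 1)).filter fun i => a < t i ∧ t i ≤ b := by
        intro i hi
        rw [Finset.mem_Ioc] at hi
        rw [Finset.mem_filter, Finset.mem_range]
        have h5 : T i = t i := by simp only [hT]; rw [min_eq_left (by omega)]
        have h6 := hi2 i hi.1 (by omega)
        have h7 : T i ≤ T (i₀ + r) := hm hi.2
        omega
      have := Finset.card_le_card hsub
      rw [Nat.card_Ioc] at this
      omega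
    omega

theorem t_LE : S_LE := by
  intro α w p ⟨t, h0, h1, h2, h3⟩
  refine ⟨2 * p + 1, by positivity, fun E hE => ?_⟩
  set j := Nat.log 2 E + 1 with hj
  have hlog : (Nat.log 2 E : ℝ) ≤ 2 * Real.log E := by
    have h4 : 2 ^ Nat.log 2 E ≤ E := Nat.pow_log_le_self 2 (by omega)
    have h5 : (2 : ℝ) ^ Nat.log 2 E ≤ E := by exact_mod_cast h4
    have h6 := Real.log_le_log (by positivity) h5
    rw [Real.log_pow] at h6
    have h7 := Real.log_two_gt_d9
    have h8 : (0 : ℝ) ≤ Nat.log 2 E := by positivity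
    nlinarith
  have hE1 : (0 : ℝ) ≤ Real.log E := Real.log_natCast_nonneg E
  refine ⟨j * p + 1, ?_, fun N hN => ?_⟩
  · push_cast [hj]
    have hp : (0 : ℝ) ≤ p := by positivity
    nlinarith
  have hmono : Monotone t := monotone_nat_of_le_succ fun i => (h3 i).1
  have hpow : ∀ j i, 2 ^ j * t i ≤ t (i + j * p) := by
    intro j
    induction j with
    | zero => intro i; simp
    | succ j ih =>
      intro i
      have h4 := h2 (i + j * p)
      have h5 := ih i
      have h6 : i + (j + 1) * p = i + j * p + p := by ring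
      rw [h6, pow_succ]
      calc 2 ^ j * 2 * t i = 2 * (2 ^ j * t i) := by ring
        _ ≤ 2 * t (i + j * p) := by omega
        _ ≤ _ := h4
  have hE2 : E < 2 ^ j := Nat.lt_pow_succ_log_self (by norm_num) E
  -- the first index with `N < t i`
  have hex : ∃ i, N < t i := by
    refine ⟨1 + (N) * p, ?_⟩
    have h4 := hpow N 1
    rw [h1, mul_one] at h4
    exact lt_of_lt_of_le Nat.lt_two_pow_self h4
  classical
  set i₁ := Nat.find hex with hi₁
  have hi₁' : N < t i₁ := Nat.find_spec hex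
  have hi₂ : E * N ≤ t (i₁ + j * p) := by
    refine le_trans ?_ (hpow j i₁)
    exact Nat.mul_le_mul hE2.le hi₁'.le
  refine cut (t := t) (z := i₁ + j * p) (fun i _ => h3 i) (Nat.le_mul_of_pos_left N (by omega))
    (by rw [h0]; omega) hi₂ ?_
  have hsub : ((Finset.range (i₁ + j * p + 1)).filter fun i => N < t i ∧ t i ≤ E * N) ⊆
      Finset.Ico i₁ (i₁ + j * p) := by
    intro i hi
    rw [Finset.mem_filter, Finset.mem_range] at hi
    rw [Finset.mem_Ico]
    refine ⟨Nat.find_le hi.2.1, ?_⟩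
    by_contra hcon
    have h5 : i = i₁ + j * p := by omega
    have h6 := hpow j i₁
    have h7 : E * N < 2 ^ j * t i₁ := Nat.mul_lt_mul_of_lt_of_le hE2 hi₁'.le (by omega)
    rw [h5] at hi
    omega
  have := Finset.card_le_card hsub
  rw [Nat.card_Ico] at this
  omega

theorem parse_self {α : Type} (w : ℕ → α) (M : ℕ) : Parse w M M :=
  ⟨fun i => i, rfl, le_refl _, fun i _ => ⟨Nat.le_succ i, Or.inl (le_refl _)⟩⟩

theorem parse_LZ {α : Type} (w : ℕ → α) (M : ℕ) : Parse w M (LZ w M) :=
  Nat.sInf_mem (s := {r | Parse w M r}) ⟨M, parse_self w M⟩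

/-- the number of the boundaries in `(a, b]` -/
noncomputable def cnt (t : ℕ → ℕ) (z a b : ℕ) : ℕ :=
  ((Finset.range (z + 1)).filter fun i => a < t i ∧ t i ≤ b).card

theorem sum_cnt (t : ℕ → ℕ) (z E : ℕ) (hE : 1 ≤ E) (s : Finset ℕ) :
    ∑ j ∈ s, cnt t z (E ^ j) (E * E ^ j) ≤ z + 1 := by
  classical
  unfold cnt
  rw [← Finset.card_biUnion]
  · refine le_trans (Finset.card_le_card ?_) (le_of_eq (Finset.card_range (z + 1)))
    intro i hi
    rw [Finset.mem_biUnion] at hi
    obtain ⟨j, -, hj⟩ := hi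
    exact (Finset.mem_filter.1 hj).1
  · intro i _ j _ hij
    rw [Function.onFun, Finset.disjoint_left]
    intro x hx hx'
    rw [Finset.mem_filter] at hx hx'
    obtain ⟨-, h1, h2⟩ := hx
    obtain ⟨-, h3, h4⟩ := hx'
    rw [← pow_succ'] at h2 h4
    rcases lt_or_gt_of_ne hij with h | h
    · have : E ^ (i + 1) ≤ E ^ j := Nat.pow_le_pow_right hE h
      omega
    · have : E ^ (j + 1) ≤ E ^ i := Nat.pow_le_pow_right hE h
      omega

theorem t_LP : S_LP := by
  intro k α w K hfr
  classical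
  set K' : ℝ := max K 0 with hK'
  have hK0 : 0 ≤ K' := le_max_right _ _
  have hk0 : (0 : ℝ) ≤ k := by positivity
  set A' : ℝ := 4 * k * K' + 2 * k with hA'
  have hA0 : 0 ≤ A' := by positivity
  refine ⟨A' + 1, by positivity, fun E hE => ?_⟩
  have hlE : 0 < Real.log E := Real.log_pos (by exact_mod_cast (by omega : 1 < E))
  set r : ℕ := ⌊A' * (1 + Real.log E)⌋₊ + 1 with hr
  -- one scale
  have one : ∀ n : ℕ, ∃ (N : ℕ) (t : Fin k → ℕ → ℕ), 2 ≤ N ∧ n ≤ N ∧
      ∀ l, t l 0 = N ∧ t l r = E * N ∧ ∀ i < r, Phrase (w l) (t l i) (t l (i + 1)) := by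
    intro n
    obtain ⟨M, hM1, hM2⟩ := (Filter.frequently_atTop.1 hfr) (E ^ (2 * n + 4))
    have hM0 : M ≠ 0 := by
      have : 0 < E ^ (2 * n + 4) := pow_pos (by omega) _
      omega
    set J := Nat.log E M with hJ
    have hJ1 : 2 * n + 4 ≤ J := by
      rw [hJ]
      exact (Nat.le_log_iff_pow_le (by omega) hM0).2 hM1
    have hJ2 : E ^ J ≤ M := Nat.pow_log_le_self E hM0
    have hJ3 : M < E ^ (J + 1) := Nat.lt_pow_succ_log_self (by omega) M
    have hlM : Real.log M ≤ (J + 1) * Real.log E := by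
      have h1 : (M : ℝ) ≤ (E : ℝ) ^ (J + 1) := by exact_mod_cast hJ3.le
      have h2 := Real.log_le_log (by positivity) h1
      rw [Real.log_pow] at h2
      push_cast at h2
      exact h2
    have hlM0 : 0 ≤ Real.log M := Real.log_natCast_nonneg M
    choose t ht0 htM htP using fun l => parse_LZ (w l) M
    have hz : ∀ l, (LZ (w l) M : ℝ) ≤ K' * ((J + 1) * Real.log E) := by
      intro l
      calc (LZ (w l) M : ℝ) ≤ K * Real.log M := hM2 l
        _ ≤ K' * Real.log M := mul_le_mul_of_nonneg_right (le_max_left _ _) hlM0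
        _ ≤ _ := mul_le_mul_of_nonneg_left hlM hK0
    set c : ℕ → ℕ := fun j => ∑ l, cnt (t l) (LZ (w l) M) (E ^ j) (E * E ^ j) with hc
    obtain ⟨j, hj, hcj⟩ : ∃ j ∈ Finset.Ico (J / 2) J, (c j : ℝ) ≤ A' * (1 + Real.log E) := by
      apply Finset.exists_le_of_sum_le
      · rw [Finset.nonempty_Ico]
        omega
      · rw [Finset.sum_const, Nat.card_Ico, nsmul_eq_mul]
        have h1 : ((∑ j ∈ Finset.Ico (J / 2) J, c j : ℕ) : ℝ) ≤
            k * (K' * ((J + 1) * Real.log E) + 1) := by
          have h2 : ∑ j ∈ Finset.Ico (J / 2) J, c j =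
              ∑ l, ∑ j ∈ Finset.Ico (J / 2) J, cnt (t l) (LZ (w l) M) (E ^ j) (E * E ^ j) := by
            rw [hc, Finset.sum_comm]
          rw [h2]
          push_cast
          have h3 : ∀ l : Fin k, (∑ j ∈ Finset.Ico (J / 2) J,
              (cnt (t l) (LZ (w l) M) (E ^ j) (E * E ^ j) : ℝ)) ≤
              K' * ((J + 1) * Real.log E) + 1 := by
            intro l
            have h4 := sum_cnt (t l) (LZ (w l) M) E (by omega) (Finset.Ico (J / 2) J)
            have h5 : (((∑ j ∈ Finset.Ico (J / 2) J,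
              cnt (t l) (LZ (w l) M) (E ^ j) (E * E ^ j) : ℕ)) : ℝ) ≤ (LZ (w l) M : ℝ) + 1 := by
              exact_mod_cast h4
            push_cast at h5
            linarith [hz l]
          refine (Finset.sum_le_sum fun l _ => h3 l).trans ?_
          rw [Finset.sum_const, Finset.card_univ, Fintype.card_fin, nsmul_eq_mul]
        push_cast at h1
        refine h1.trans ?_
        have hJ4 : ((J : ℝ) / 2) ≤ ((J - J / 2 : ℕ) : ℝ) := by
          have : J ≤ 2 * (J - J / 2) := by omega
          have : (J : ℝ) ≤ 2 * ((J - J / 2 : ℕ) : ℝ) := by exact_mod_cast this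
          linarith
        have hJ5 : (1 : ℝ) ≤ J := by exact_mod_cast (by omega : 1 ≤ J)
        have h6 : 0 ≤ A' * (1 + Real.log E) := by positivity
        calc (k : ℝ) * (K' * ((J + 1) * Real.log E) + 1)
            ≤ (J : ℝ) / 2 * (A' * (1 + Real.log E)) := by
              rw [hA']
              have e1 : (k : ℝ) * K' * Real.log E * 1 ≤ (k : ℝ) * K' * Real.log E * J :=
                mul_le_mul_of_nonneg_left hJ5 (by positivity)
              have e2 : (k : ℝ) * 1 ≤ k * J := mul_le_mul_of_nonneg_left hJ5 hk0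
              have e3 : 0 ≤ (k : ℝ) * K' * J := by positivity
              have e4 : 0 ≤ (k : ℝ) * J * Real.log E := by positivity
              nlinarith
          _ ≤ _ := mul_le_mul_of_nonneg_right hJ4 h6
    rw [Finset.mem_Ico] at hj
    have hcl : ∀ l, cnt (t l) (LZ (w l) M) (E ^ j) (E * E ^ j) < r := by
      intro l
      have h1 : cnt (t l) (LZ (w l) M) (E ^ j) (E * E ^ j) ≤ c j :=
        Finset.single_le_sum (f := fun l => cnt (t l) (LZ (w l) M) (E ^ j) (E * E ^ j))
          (fun _ _ => Nat.zero_le _) (Finset.mem_univ l)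
      have h2 : c j ≤ ⌊A' * (1 + Real.log E)⌋₊ := Nat.le_floor hcj
      omega
    have hEj : E * E ^ j ≤ M := by
      rw [← pow_succ']
      exact (Nat.pow_le_pow_right (by omega) (by omega : j + 1 ≤ J)).trans hJ2
    have hcut := fun l => cut (t := t l) (z := LZ (w l) M) (htP l) (a := E ^ j) (b := E * E ^ j)
      (Nat.le_mul_of_pos_left _ (by omega)) (by rw [ht0 l]; exact Nat.zero_le _)
      (hEj.trans (htM l)) (hcl l)
    choose u hu0 hu1 hu2 using hcut
    have hjn : n + 1 ≤ j := by omega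
    have h2j : 2 ^ j ≤ E ^ j := Nat.pow_le_pow_left hE j
    have h3j : j < 2 ^ j := Nat.lt_two_pow_self
    refine ⟨E ^ j, u, ?_, by omega, fun l => ⟨hu0 l, hu1 l, hu2 l⟩⟩
    have : 2 ^ 1 ≤ 2 ^ j := Nat.pow_le_pow_right (by norm_num) (by omega)
    omega
  choose N t h1 h2 h3 using one
  refine ⟨N, r, fun l n => t n l, ?_, h1, tendsto_atTop_mono h2 tendsto_id, fun l n => h3 n l⟩
  rw [hr]
  push_cast
  have h4 : (⌊A' * (1 + Real.log E)⌋₊ : ℝ) ≤ A' * (1 + Real.log E) := Nat.floor_le (by positivity)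
  nlinarith

end Pool.Agent.L0h48.FR
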